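import Pool.Agent.H88.CC.Final

/-!
# Total search problems in communication complexity have no complete problem

Definitions are in `Pool.Agent.H88.CC.Basic`.

Proof. `S n` is the problem: Alice has `x`, Bob has `y`, find `i` and a bit `b` with
`x i = b`, `y i ≠ b`, or a bit `e` with `F x = e = F y`, where `F : {0,1}^n → {0,1}` is chosen such
that no cheap reduction exists. A reduction tree with its functions of `x` and `y` erased
determines a pair of families of label sets such that each set of the first family meets each set
of the second one (by totality of `T` at the query nodes). There are few such pairs, and each pair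
serves at most one `F`, as the labels compatible with `x` and the value `0` of `F x` are disjoint
from those compatible with `y = x` and the value `1` of `F y`.
-/

namespace Pool.Agent.H88.Reserve.Communication

open Pool.Agent.H88.CC

/-- **TFNP in communication complexity has no complete problem**, not even under deterministic
Turing reductions and jointly for countable families, and with a polynomial lower bound. -/
theorem result :
    (∀ T : ℕ → Problem, ∃ S : Problem,
      (∀ n, S.sol n = 2 * n + 2) ∧
      (∀ n z, ∃ π : Protocol (Str n) (Str n) Bool, π.cost ≤ 2 ∧
        ∀ x y, π.run x y = true ↔ S.rel n x y z) ∧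
      ∀ j n, j < n → 16 ≤ n → ∀ t : Reduction (T j) (Str n) (Str n) (Fin (S.sol n)),
        t.Solves (S.rel n) → n ≤ (8 * (T j).k + 28) * t.cost ^ ((T j).k + 2)) ∧
    ¬ ∃ T : ℕ → Problem, ∀ S : Problem, ∃ j, TuringReduces S (T j) :=
  Pool.Agent.H88.CC.main

end Pool.Agent.H88.Reserve.Communication
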