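import Pool.Agent.H88.BB.Final

/-!
# The black-box form of the question is the question whether coNP is in NP/qpoly

The decision tree model of total NP search problems, the three kinds of reductions and
nonuniform NP are defined in `Pool.Agent.H88.BB.Basic`.

Proof. If countably many problems are jointly complete under Turing reductions then, by a
diagonal choice of one instance for each length, there are one problem `T` and one polylogarithmic
bound such that for every `x` outside a given NP language the search for a violated clause of the
verifying CNF reduces to `T` within this bound. The table of the reduction is a short witness for
the fact that `x` is outside; it is correct iff quasipolynomially many conditions hold, each on
polylogarithmically many bits of the table and of `x` (the bits of the searched assignment are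
projected away). Conversely, if complements of NP languages are in NP, an instance of the complete
problem consists of the table of a family of decision trees, an alleged witness that this family
codes a total problem, and an assignment; the solutions are the violated conditions on the witness
and the solutions of the coded problem.
-/

namespace Pool.Agent.H88.Reserve.DecisionTrees

open Pool.Agent.H88.BB

/-- **TFNP in the decision tree model has a complete problem iff nonuniform NP of
quasipolynomial size is closed under complement**; the same for projections, many-one reductions,
Turing reductions, and for countable families of problems. -/
theorem result : List.TFAE [
    ∃ T : Problem, ∀ S : Problem, Projects S T,
    ∃ T : Problem, ∀ S : Problem, Reduces S T,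
    ∃ T : Problem, ∀ S : Problem, TuringReduces S T,
    ∃ T : ℕ → Problem, ∀ S : Problem, ∃ j, TuringReduces S (T j),
    ∀ L : Language, InNP L → InNP (fun n => (L n)ᶜ)] :=
  Pool.Agent.H88.BB.main

end Pool.Agent.H88.Reserve.DecisionTrees
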